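import Mathlib

/-!
# Interpolation in powers of `x(t)` with control of the degree
-/

set_option autoImplicit false

open Finset

namespace Pool.Agent.H88.UG

/-- A multiplicative filtration of a commutative ring. -/
structure Filt (R : Type) [CommRing R] where
  F : ℕ → AddSubgroup R
  one : (1 : R) ∈ F 0
  mul : ∀ {i j : ℕ} {a b : R}, a ∈ F i → b ∈ F j → a * b ∈ F (i + j)
  mono : ∀ {i j : ℕ} {a : R}, i ≤ j → a ∈ F i → a ∈ F j

namespace Filt

variable {R : Type} [CommRing R] (Φ : Filt R)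

theorem pow {i : ℕ} {a : R} (h : a ∈ Φ.F i) (n : ℕ) : a ^ n ∈ Φ.F (n * i) := by
  induction n with
  | zero => simpa using Φ.one
  | succ n ih =>
    rw [pow_succ, Nat.succ_mul]
    exact Φ.mul ih h

theorem natCast (n : ℕ) : (n : R) ∈ Φ.F 0 := by
  rw [← nsmul_one]
  exact (Φ.F 0).nsmul_mem Φ.one n

theorem sum {ι : Type*} {i : ℕ} {s : Finset ι} {f : ι → R} (h : ∀ j ∈ s, f j ∈ Φ.F i) :
    ∑ j ∈ s, f j ∈ Φ.F i := (Φ.F i).sum_mem h

/-- Power series whose `s`-th coefficient lies in `F (a s + c)`. -/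
def PS (a c : ℕ) (f : PowerSeries R) : Prop := ∀ s, PowerSeries.coeff s f ∈ Φ.F (a * s + c)

theorem PS_mul {a c c' : ℕ} {f g : PowerSeries R} (hf : Φ.PS a c f) (hg : Φ.PS a c' g) :
    Φ.PS a (c + c') (f * g) := by
  intro s
  rw [PowerSeries.coeff_mul]
  refine Φ.sum fun p hp => ?_
  have h := mem_antidiagonal.1 hp
  have h2 := Φ.mul (hf p.1) (hg p.2)
  refine Φ.mono (le_of_eq ?_) h2
  rw [← h]
  ring

theorem PS_one (a : ℕ) : Φ.PS a 0 1 := by
  intro s
  rw [PowerSeries.coeff_one]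
  split_ifs with h
  · exact Φ.mono (Nat.zero_le _) Φ.one
  · exact (Φ.F _).zero_mem

theorem PS_pow {a c : ℕ} {f : PowerSeries R} (hf : Φ.PS a c f) (n : ℕ) : Φ.PS a (n * c) (f ^ n) := by
  induction n with
  | zero => simpa using Φ.PS_one a
  | succ n ih =>
    rw [pow_succ, Nat.succ_mul]
    exact Φ.PS_mul ih hf

theorem PS_prod {ι : Type*} {a : ℕ} {s : Finset ι} {c : ι → ℕ} {f : ι → PowerSeries R}
    (h : ∀ j ∈ s, Φ.PS a (c j) (f j)) : Φ.PS a (∑ j ∈ s, c j) (∏ j ∈ s, f j) := by
  classical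
  induction s using Finset.induction_on with
  | empty => simpa using Φ.PS_one a
  | insert i s hi ih =>
    rw [Finset.sum_insert hi, Finset.prod_insert hi]
    exact Φ.PS_mul (h i (Finset.mem_insert_self _ _)) (ih fun j hj => h j (Finset.mem_insert_of_mem hj))

/-- Triangular systems. -/
theorem tri (c : ℕ) (M : ℕ → ℕ → R) (hM1 : ∀ s, M s s = 1) (hM0 : ∀ r s, s < r → M r s = 0)
    (hM : ∀ r s, r ≤ s → M r s ∈ Φ.F (3 * (s - r))) (w : ℕ → R) (k : ℕ) (hw : ∀ s ≤ k, w s ∈ Φ.F (c + 3 * s)) :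
    ∃ b : ℕ → R, (∀ r ≤ k, b r ∈ Φ.F (c + 3 * r)) ∧ ∀ s ≤ k, w s = ∑ r ∈ range (k + 1), b r * M r s := by
  induction k with
  | zero =>
    refine ⟨w, hw, fun s hs => ?_⟩
    have h : s = 0 := Nat.le_zero.1 hs
    subst h
    simp [hM1]
  | succ k ih =>
    obtain ⟨b, hb1, hb2⟩ := ih fun s hs => hw s (Nat.le_succ_of_le hs)
    set v : R := w (k + 1) - ∑ r ∈ range (k + 1), b r * M r (k + 1) with hv
    have hvm : v ∈ Φ.F (c + 3 * (k + 1)) := by
      refine (Φ.F _).sub_mem (hw _ le_rfl) (Φ.sum fun r hr => ?_)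
      have hr' : r ≤ k := Nat.lt_succ_iff.1 (mem_range.1 hr)
      refine Φ.mono (le_of_eq ?_) (Φ.mul (hb1 r hr') (hM r (k + 1) (Nat.le_succ_of_le hr')))
      omega
    refine ⟨Function.update b (k + 1) v, fun r hr => ?_, fun s hs => ?_⟩
    · rcases Nat.lt_or_ge k r with h | h
      · have : r = k + 1 := by omega
        subst this
        simpa using hvm
      · rw [Function.update_of_ne (by omega)]
        exact hb1 r h
    · rw [sum_range_succ, Function.update_self]
      have h1 : ∀ r ∈ range (k + 1), Function.update b (k + 1) v r * M r s = b r * M r s := fun r hr => by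
        have := mem_range.1 hr
        rw [Function.update_of_ne (by omega)]
      rw [sum_congr rfl h1]
      rcases Nat.lt_or_ge k s with h | h
      · have : s = k + 1 := by omega
        subst this
        rw [hM1, hv]
        ring
      · rw [hM0 (k + 1) s (by omega), mul_zero, add_zero]
        exact hb2 s h

/-- The series `q` with `z(y v) = y² v q(v)`. -/
noncomputable def q (x : ℕ → R) : PowerSeries R :=
  PowerSeries.mk fun s => if s = 0 then 1 else x 1 ^ (s - 1) * x (s + 1)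

/-- The series `z(t) = x(t) - x(0)`. -/
noncomputable def zs (x : ℕ → R) : PowerSeries R := PowerSeries.mk fun s => if s = 0 then 0 else x s

omit Φ in
theorem rescale_zs (x : ℕ → R) : PowerSeries.rescale (x 1) (zs x) = PowerSeries.C (x 1 ^ 2) * PowerSeries.X * q x := by
  ext s
  rw [PowerSeries.coeff_rescale, mul_assoc, PowerSeries.coeff_C_mul]
  cases s with
  | zero => simp [zs]
  | succ s =>
    rw [PowerSeries.coeff_succ_X_mul, zs, q, PowerSeries.coeff_mk, PowerSeries.coeff_mk]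
    cases s with
    | zero => simp [pow_two]
    | succ s =>
      simp only [Nat.add_eq_zero_iff, one_ne_zero, and_false, if_false, Nat.add_sub_cancel]
      ring

theorem PS_q {x : ℕ → R} (hx : ∀ s, x s ∈ Φ.F (s + 1)) : Φ.PS 3 0 (q x) := by
  intro s
  rw [q, PowerSeries.coeff_mk]
  split_ifs with h
  · exact Φ.mono (Nat.zero_le _) Φ.one
  · refine Φ.mono ?_ (Φ.mul (Φ.pow (hx 1) (s - 1)) (hx (s + 1)))
    omega

omit Φ in
theorem coeff_zs_pow (x : ℕ → R) (r s : ℕ) : x 1 ^ s * PowerSeries.coeff s (zs x ^ r) =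
    x 1 ^ (2 * r) * if r ≤ s then PowerSeries.coeff (s - r) (q x ^ r) else 0 := by
  rw [← PowerSeries.coeff_rescale, map_pow, rescale_zs, mul_pow, mul_pow, ← map_pow, mul_assoc,
    PowerSeries.coeff_C_mul, ← pow_mul, PowerSeries.coeff_X_pow_mul']

/-- INTERPOLATION: every series is modulo `t^{k+1}` a combination of the powers of `x(t)`, after multiplication
with `x₁^{2k}`. -/
theorem interp [IsDomain R] {x : ℕ → R} (hx : ∀ s, x s ∈ Φ.F (s + 1)) (hy : x 1 ≠ 0) (k c : ℕ) {u : ℕ → R}
    (hu : ∀ s ≤ k, u s ∈ Φ.F (c + s)) :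
    ∃ e : ℕ → R, (∀ r ≤ k, e r ∈ Φ.F (4 * k + c)) ∧
      ∀ s ≤ k, x 1 ^ (2 * k) * u s = ∑ r ∈ range (k + 1), e r * PowerSeries.coeff s (PowerSeries.mk x ^ r) := by
  obtain ⟨b, hb1, hb2⟩ := Φ.tri c (fun r s => if r ≤ s then PowerSeries.coeff (s - r) (q x ^ r) else 0)
    (fun s => by
      simp only [le_refl, if_true, Nat.sub_self, PowerSeries.coeff_zero_eq_constantCoeff, map_pow]
      have : PowerSeries.constantCoeff (q x) = 1 := by
        rw [q, ← PowerSeries.coeff_zero_eq_constantCoeff, PowerSeries.coeff_mk, if_pos rfl]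
      rw [this, one_pow])
    (fun r s h => if_neg (not_le.2 h))
    (fun r s h => by
      simp only [if_pos h]
      have := Φ.PS_pow (Φ.PS_q hx) r (s - r)
      rwa [mul_zero, add_zero] at this)
    (fun s => x 1 ^ s * u s) k
    (fun s hs => Φ.mono (by omega) (Φ.mul (Φ.pow (hx 1) s) (hu s hs)))
  set cc : ℕ → R := fun r => b r * x 1 ^ (2 * k - 2 * r) with hcc
  have hcm : ∀ r ≤ k, cc r ∈ Φ.F (4 * k + c - r) := fun r hr =>
    Φ.mono (by omega) (Φ.mul (hb1 r hr) (Φ.pow (hx 1) (2 * k - 2 * r)))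
  have hcz : ∀ s ≤ k, x 1 ^ (2 * k) * u s = ∑ r ∈ range (k + 1), cc r * PowerSeries.coeff s (zs x ^ r) := by
    intro s hs
    have hne : x 1 ^ s ≠ 0 := pow_ne_zero _ hy
    apply mul_left_cancel₀ hne
    have h := hb2 s hs
    calc x 1 ^ s * (x 1 ^ (2 * k) * u s) = x 1 ^ (2 * k) * (x 1 ^ s * u s) := by ring
      _ = x 1 ^ (2 * k) * ∑ r ∈ range (k + 1), b r * (if r ≤ s then PowerSeries.coeff (s - r) (q x ^ r) else 0) := by
        rw [h]
      _ = ∑ r ∈ range (k + 1), cc r * (x 1 ^ s * PowerSeries.coeff s (zs x ^ r)) := by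
        rw [mul_sum]
        refine sum_congr rfl fun r hr => ?_
        have hr' : r ≤ k := Nat.lt_succ_iff.1 (mem_range.1 hr)
        rw [coeff_zs_pow, hcc]
        have h2 : x 1 ^ (2 * k) = x 1 ^ (2 * k - 2 * r) * x 1 ^ (2 * r) := by
          rw [← pow_add]
          congr 1
          omega
        rw [h2]
        ring
      _ = _ := by
        rw [mul_sum]
        exact sum_congr rfl fun r _ => by ring
  refine ⟨fun j => ∑ r ∈ range (k + 1), if j ≤ r then cc r * ((r.choose j : R) * (-x 0) ^ (r - j)) else 0,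
    fun j hj => Φ.sum fun r hr => ?_, fun s hs => ?_⟩
  · have hr' : r ≤ k := Nat.lt_succ_iff.1 (mem_range.1 hr)
    split_ifs with h
    · have h1 : -x 0 ∈ Φ.F 1 := (Φ.F 1).neg_mem (hx 0)
      refine Φ.mono ?_ (Φ.mul (hcm r hr') (Φ.mul (Φ.natCast (r.choose j)) (Φ.pow h1 (r - j))))
      omega
    · exact (Φ.F _).zero_mem
  · rw [hcz s hs]
    have hz : zs x = PowerSeries.mk x + PowerSeries.C (-x 0) := by
      ext s
      rw [zs, map_add, PowerSeries.coeff_mk, PowerSeries.coeff_mk, PowerSeries.coeff_C]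
      split_ifs with h
      · subst h
        ring
      · ring
    have hpow : ∀ r, PowerSeries.coeff s (zs x ^ r) =
        ∑ j ∈ range (r + 1), (r.choose j : R) * (-x 0) ^ (r - j) * PowerSeries.coeff s (PowerSeries.mk x ^ j) := by
      intro r
      rw [hz, add_pow, map_sum]
      refine sum_congr rfl fun j _ => ?_
      have : PowerSeries.mk x ^ j * PowerSeries.C (-x 0) ^ (r - j) * (r.choose j : PowerSeries R) =
          PowerSeries.C ((r.choose j : R) * (-x 0) ^ (r - j)) * PowerSeries.mk x ^ j := by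
        rw [map_mul, map_pow, map_natCast]
        ring
      rw [this, PowerSeries.coeff_C_mul]
    simp_rw [sum_mul]
    rw [sum_comm]
    refine sum_congr rfl fun r hr => ?_
    have hr' : r < k + 1 := mem_range.1 hr
    rw [hpow, mul_sum]
    have h3 : ∑ j ∈ range (k + 1), (if j ≤ r then cc r * ((r.choose j : R) * (-x 0) ^ (r - j)) else 0) *
        PowerSeries.coeff s (PowerSeries.mk x ^ j) = ∑ j ∈ range (r + 1),
          (if j ≤ r then cc r * ((r.choose j : R) * (-x 0) ^ (r - j)) else 0) *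
            PowerSeries.coeff s (PowerSeries.mk x ^ j) := by
      symm
      refine sum_subset (fun j hj => ?_) fun j _ hj => ?_
      · rw [mem_range] at hj ⊢
        omega
      · rw [mem_range, not_lt] at hj
        rw [if_neg (by omega), zero_mul]
    rw [h3]
    refine sum_congr rfl fun j hj => ?_
    rw [if_pos (Nat.lt_succ_iff.1 (mem_range.1 hj))]
    ring

end Filt

end Pool.Agent.H88.UG
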