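import Mathlib

/-!
# The order lemma, abstract form
-/

set_option autoImplicit false

open MvPolynomial

namespace Pool.Agent.H88.UG

section

variable {ι Λ : Type} [Field Λ]

/-- Translation of the point `ξ` to the origin. -/
noncomputable def tr (ξ : ι → Λ) : MvPolynomial ι Λ →ₐ[Λ] MvPolynomial ι Λ := aeval fun i => X i + C (ξ i)

/-- `Q` vanishes to order at least `p` at the point `ξ`. -/
def Van (ξ : ι → Λ) (p : ℕ) (Q : MvPolynomial ι Λ) : Prop :=
  ∀ a : ι →₀ ℕ, a.degree < p → coeff a (aeval (fun i => X i + C (ξ i)) Q) = 0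

/-- The order at the point `ξ`. -/
noncomputable def od (ξ : ι → Λ) (Q : MvPolynomial ι Λ) : ℕ∞ :=
  ((tr ξ Q : MvPolynomial ι Λ) : MvPowerSeries ι Λ).order

theorem van_iff (ξ : ι → Λ) (p : ℕ) (Q : MvPolynomial ι Λ) : Van ξ p Q ↔ (p : ℕ∞) ≤ od ξ Q := by
  constructor
  · intro h
    refine MvPowerSeries.le_order fun a ha => ?_
    rw [coeff_coe]
    exact h a (by exact_mod_cast ha)
  · intro h a ha
    have := MvPowerSeries.coeff_of_lt_order (f := ((tr ξ Q : MvPolynomial ι Λ) : MvPowerSeries ι Λ)) (d := a)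
      (lt_of_lt_of_le (by exact_mod_cast ha) h)
    rwa [coeff_coe] at this

theorem od_mul (ξ : ι → Λ) (P Q : MvPolynomial ι Λ) : od ξ (P * Q) = od ξ P + od ξ Q := by
  unfold od
  rw [map_mul, coe_mul, MvPowerSeries.order_mul]

theorem coeff_zero_tr (ξ : ι → Λ) (Q : MvPolynomial ι Λ) : coeff 0 (tr ξ Q) = eval ξ Q := by
  have h : (constantCoeff (σ := ι) (R := Λ)).comp (tr ξ : MvPolynomial ι Λ →+* MvPolynomial ι Λ) = eval ξ := by
    apply MvPolynomial.ringHom_ext
    · intro r
      simp [tr]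
    · intro i
      simp [tr]
  exact congrArg (fun f => f Q) h

theorem od_unit (ξ : ι → Λ) (Q : MvPolynomial ι Λ) (h : eval ξ Q ≠ 0) : od ξ Q = 0 := by
  by_contra h0
  apply h
  rw [← coeff_zero_tr]
  have h1 := (van_iff ξ 1 Q).2 (by
    rw [Nat.cast_one]
    exact Order.one_le_iff_ne_zero.2 h0)
  exact h1 0 (by simp)

theorem Van.cancel {ξ : ι → Λ} {p : ℕ} {y Q : MvPolynomial ι Λ} (hy : eval ξ y ≠ 0) (h : Van ξ p (y * Q)) :
    Van ξ p Q := by
  rw [van_iff] at h ⊢
  rwa [od_mul, od_unit ξ y hy, zero_add] at h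

theorem Van.mul {ξ : ι → Λ} {p : ℕ} (y : MvPolynomial ι Λ) {Q : MvPolynomial ι Λ} (h : Van ξ p Q) :
    Van ξ p (y * Q) := by
  rw [van_iff] at h ⊢
  rw [od_mul]
  exact le_add_left h

theorem Van.sum {ξ : ι → Λ} {p : ℕ} {β : Type*} {s : Finset β} {f : β → MvPolynomial ι Λ}
    (h : ∀ j ∈ s, Van ξ p (f j)) : Van ξ p (∑ j ∈ s, f j) := by
  intro a ha
  rw [map_sum, coeff_sum]
  exact Finset.sum_eq_zero fun j hj => h j hj a ha

theorem pderiv_tr (ξ : ι → Λ) (i : ι) (Q : MvPolynomial ι Λ) : pderiv i (tr ξ Q) = tr ξ (pderiv i Q) := by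
  classical
  induction Q using MvPolynomial.induction_on with
  | C a => simp [tr]
  | add p q hp hq => rw [map_add, map_add, hp, hq, map_add, map_add]
  | mul_X p j hp =>
    rw [map_mul, pderiv_mul, hp, pderiv_mul, map_add, map_mul, map_mul]
    congr 2
    simp only [tr, aeval_X, map_add, pderiv_X, pderiv_C, add_zero, Pi.single_apply]
    split_ifs <;> simp

theorem Van.step [CharZero Λ] {ξ : ι → Λ} {p : ℕ} {Q : MvPolynomial ι Λ} (h0 : eval ξ Q = 0)
    (h : ∀ i, Van ξ p (pderiv i Q)) : Van ξ (p + 1) Q := by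
  intro a ha
  by_cases h1 : a = 0
  · subst h1
    exact (coeff_zero_tr ξ Q).trans h0
  · obtain ⟨i, hi⟩ : ∃ i, a i ≠ 0 := by
      by_contra hc
      push Not at hc
      exact h1 (Finsupp.ext hc)
    have hle : Finsupp.single i 1 ≤ a := by
      rw [Finsupp.single_le_iff]
      omega
    have hab : a = (a - Finsupp.single i 1) + Finsupp.single i 1 := (tsub_add_cancel_of_le hle).symm
    have hdeg : (a - Finsupp.single i 1).degree < p := by
      have h2 : a.degree = (a - Finsupp.single i 1).degree + (Finsupp.single i 1 : ι →₀ ℕ).degree := by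
        conv_lhs => rw [hab]
        rw [map_add]
      have h3 : (Finsupp.single i 1 : ι →₀ ℕ).degree = 1 := Finsupp.degree_single i 1
      omega
    have h4 := h i _ hdeg
    change coeff _ (tr ξ (pderiv i Q)) = 0 at h4
    rw [← pderiv_tr, coeff_pderiv, ← hab] at h4
    change coeff a (tr ξ Q) = 0
    rcases mul_eq_zero.1 h4 with h5 | h5
    · exact h5
    · exfalso
      have : ((((a - Finsupp.single i 1 : ι →₀ ℕ) i : ℕ) + 1 : ℕ) : Λ) ≠ 0 := Nat.cast_ne_zero.2 (Nat.succ_ne_zero _)
      apply this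
      push_cast
      exact h5

/-- Action of a word. -/
def wd {S 𝒟 : Type*} (act : 𝒟 → S → S) (w : List 𝒟) (P : S) : S := w.foldr act P

/-- ORDER: if all words of length at most `p` in the operators vanish at a point and the operators generate the
partial derivatives up to a factor which does not vanish at the point, then the order is more than `p`. -/
theorem order [CharZero Λ] {S 𝒟 : Type*} (act : 𝒟 → S → S) (VV : Set 𝒟) (z : S → MvPolynomial ι Λ)
    (ξ : ι → Λ)
    (hs : ∀ i, ∃ y : MvPolynomial ι Λ, eval ξ y ≠ 0 ∧ ∃ (r : ℕ) (c : Fin r → MvPolynomial ι Λ) (V : Fin r → 𝒟),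
      (∀ j, V j ∈ VV) ∧ ∀ P, y * pderiv i (z P) = ∑ j, c j * z (act (V j) P))
    (p : ℕ) (P : S) (h : ∀ w : List 𝒟, (∀ V ∈ w, V ∈ VV) → w.length ≤ p → eval ξ (z (wd act w P)) = 0) :
    Van ξ (p + 1) (z P) := by
  induction p generalizing P with
  | zero =>
    intro a ha
    have ha0 : a = 0 := by
      rw [← Finsupp.degree_eq_zero_iff]
      omega
    subst ha0
    exact (coeff_zero_tr ξ (z P)).trans (h [] (by simp) le_rfl)
  | succ p ih =>
    refine Van.step (h [] (by simp) (Nat.zero_le _)) fun i => ?_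
    obtain ⟨y, hy, r, c, V, hV, hsum⟩ := hs i
    refine Van.cancel hy ?_
    rw [hsum]
    refine Van.sum fun j _ => Van.mul _ (ih _ fun w hw hl => ?_)
    have h1 := h (w ++ [V j]) (fun U hU => by
      rcases List.mem_append.1 hU with h2 | h2
      · exact hw U h2
      · rw [List.mem_singleton] at h2
        rw [h2]
        exact hV j) (by simp; omega)
    rwa [wd, List.foldr_append] at h1

end

end Pool.Agent.H88.UG
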